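import Pool.Agent.H.MP_38ccf3_nt.Main

set_option autoImplicit false
open Filter Topology

namespace Pool.Agent.Results.MP_38ccf3_nt.AbsNormalRecip

/-- There is one real number `x` which is normal in every base `r ≥ 2`, while in every base `r ≥ 2`
the digit `0` of its reciprocal does not have asymptotic frequency `1/r`, so that the reciprocal is
not normal, not even simply normal, in any base. -/
theorem result :
    ∃ x : ℝ, ∀ r : ℕ, 2 ≤ r →
      (∀ k : ℕ, 1 ≤ k → ∀ m : ℤ, 0 ≤ m → m < (r : ℤ) ^ k →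
        Tendsto (fun N : ℕ =>
          (((Finset.range N).filter
              (fun n : ℕ => ⌊(r : ℝ) ^ (n + k) * x⌋ % (r : ℤ) ^ k = m)).card : ℝ) / (N : ℝ))
          atTop (𝓝 (1 / (r : ℝ) ^ k))) ∧
      ¬ Tendsto (fun N : ℕ =>
          (((Finset.range N).filter
              (fun n : ℕ => ⌊(r : ℝ) ^ (n + 1) * x⁻¹⌋ % (r : ℤ) = 0)).card : ℝ) / (N : ℝ))
          atTop (𝓝 (1 / (r : ℝ))) :=
  Pool.Agent.H.MP_38ccf3_nt.exists_strong

end Pool.Agent.Results.MP_38ccf3_nt.AbsNormalRecip
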